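import Mathlib

set_option autoImplicit false

namespace Pool.Agent.H27.MR

open Finset

/-- coprime splitting of a square -/
lemma split_sq {a c b : ℕ} (h : Nat.Coprime a c) (he : a * c = b ^ 2) :
    ∃ r s : ℕ, a = r ^ 2 ∧ c = s ^ 2 ∧ r * s = b := by
  have h1 : IsUnit (gcd a c) := Nat.isUnit_iff.mpr h
  have h2 : IsUnit (gcd c a) := Nat.isUnit_iff.mpr h.symm
  obtain ⟨r, hr⟩ := exists_eq_pow_of_mul_eq_pow h1 he
  obtain ⟨s, hs⟩ := exists_eq_pow_of_mul_eq_pow h2 ((mul_comm c a).trans he)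
  refine ⟨r, s, hr, hs, ?_⟩
  have : (r * s) ^ 2 = b ^ 2 := by rw [mul_pow, ← hr, ← hs, he]
  exact Nat.pow_left_injective (n := 2) (by norm_num) this

/-- splitting of `a (a + 1) = d e b ^ 2` with `d ∣ a`, `e ∣ a + 1` -/
lemma split_two {a b d e : ℕ} (hd : 0 < d) (he : 0 < e) (hda : d ∣ a) (hea : e ∣ a + 1)
    (h : a * (a + 1) = d * e * b ^ 2) :
    ∃ r s : ℕ, a = d * r ^ 2 ∧ a + 1 = e * s ^ 2 ∧ r * s = b := by
  obtain ⟨a', ha'⟩ := hda
  obtain ⟨c', hc'⟩ := hea
  have h1 : a' * c' = b ^ 2 := by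
    have : d * e * (a' * c') = d * e * b ^ 2 := by
      calc d * e * (a' * c') = (d * a') * (e * c') := by ring
        _ = a * (a + 1) := by rw [← ha', ← hc']
        _ = _ := h
    exact Nat.eq_of_mul_eq_mul_left (Nat.mul_pos hd he) this
  have h2 : Nat.Coprime a' c' := by
    have h3 : Nat.Coprime a (a + 1) := by simp
    exact Nat.Coprime.coprime_dvd_left (Dvd.intro_left d ha'.symm)
      (Nat.Coprime.coprime_dvd_right (Dvd.intro_left e hc'.symm) h3)
  obtain ⟨r, s, hr, hs, hrs⟩ := split_sq h2 h1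
  exact ⟨r, s, by rw [ha', hr], by rw [hc', hs], hrs⟩

/-- negative Pell equation for a product of two primes `1` modulo `4`, one of which is not a
square modulo the other (Dirichlet) -/
theorem negPell {p q : ℕ} (hp : p.Prime) (hq : q.Prime) (hpq : p ≠ q) (hp4 : p % 4 = 1)
    (hq4 : q % 4 = 1) (hns : ¬ IsSquare (p : ZMod q)) :
    ∃ n y : ℕ, 0 < y ∧ n ^ 2 + 1 = p * q * y ^ 2 := by
  have hcop : Nat.Coprime p q := (Nat.coprime_primes hp hq).mpr hpq
  have : Fact q.Prime := ⟨hq⟩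
  -- existence of a solution of the Pell equation
  have hnsq : ¬ IsSquare ((p * q : ℕ) : ℤ) := by
    intro h
    have h1 : IsSquare (p * q) := by exact_mod_cast h
    obtain ⟨r, s, hr, -, -⟩ := split_sq (b := Classical.choose h1) hcop (by
      rw [sq]; exact Classical.choose_spec h1)
    have : IsSquare p := ⟨r, by rw [hr, sq]⟩
    exact hp.prime.not_isSquare this
  obtain ⟨sol, hx, hy⟩ := Pell.Solution₁.exists_pos_of_not_isSquare
    (by exact_mod_cast Nat.mul_pos hp.pos hq.pos) hnsq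
  have hex : ∃ y : ℕ, 0 < y ∧ ∃ x : ℕ, x ^ 2 = p * q * y ^ 2 + 1 := by
    refine ⟨sol.y.toNat, by omega, sol.x.toNat, ?_⟩
    have h1 : ((sol.x.toNat : ℕ) : ℤ) = sol.x := Int.toNat_of_nonneg (by omega)
    have h2 : ((sol.y.toNat : ℕ) : ℤ) = sol.y := Int.toNat_of_nonneg hy.le
    have h3 := sol.prop
    have h4 : (((sol.x.toNat : ℕ) : ℤ)) ^ 2 = ((p * q : ℕ) : ℤ) * ((sol.y.toNat : ℕ) : ℤ) ^ 2 + 1 := by
      rw [h1, h2]; linarith
    exact_mod_cast h4
  classical
  obtain ⟨hy0, x, hxy⟩ := Nat.find_spec hex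
  have hmin := fun m (hm : m < Nat.find hex) => Nat.find_min hex hm
  set y := Nat.find hex with hydef
  -- parities
  have hD4 : (p * q) % 4 = 1 := by rw [Nat.mul_mod, hp4, hq4]
  have hyev : y % 2 = 0 := by
    by_contra hodd
    have h1 : y % 2 = 1 := by omega
    have h2 : y ^ 2 % 4 = 1 := by
      have : y % 4 = 1 ∨ y % 4 = 3 := by omega
      rcases this with h | h <;> simp [Nat.pow_mod, h]
    have h3 : (p * q * y ^ 2 + 1) % 4 = 2 := by
      rw [Nat.add_mod, Nat.mul_mod, hD4, h2]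
    rw [← hxy] at h3
    have : x % 4 = 0 ∨ x % 4 = 1 ∨ x % 4 = 2 ∨ x % 4 = 3 := by omega
    rcases this with h | h | h | h <;> simp [Nat.pow_mod, h] at h3
  have hxodd : x % 2 = 1 := by
    by_contra hev
    have h1 : x % 2 = 0 := by omega
    have h2 : x ^ 2 % 2 = 0 := by simp [Nat.pow_mod, h1]
    have h3 : (p * q * y ^ 2 + 1) % 2 = 1 := by
      rw [Nat.add_mod, Nat.mul_mod, Nat.pow_mod y 2 2, hyev]; simp
    rw [← hxy] at h3
    omega
  obtain ⟨a, ha⟩ : ∃ a, x = 2 * a + 1 := ⟨x / 2, by omega⟩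
  obtain ⟨b, hb⟩ : ∃ b, y = 2 * b := ⟨y / 2, by omega⟩
  have hab : a * (a + 1) = p * q * b ^ 2 := by
    rw [ha, hb] at hxy
    nlinarith
  have hpd : p ∣ a ∨ p ∣ a + 1 := by
    apply (Nat.Prime.dvd_mul hp).mp
    rw [hab, mul_assoc]
    exact dvd_mul_right _ _
  have hqd : q ∣ a ∨ q ∣ a + 1 := by
    apply (Nat.Prime.dvd_mul hq).mp
    rw [hab, mul_comm p q, mul_assoc]
    exact dvd_mul_right _ _
  have hb0 : 0 < b := by omega
  have hm1 : IsSquare (-1 : ZMod q) := ZMod.exists_sq_eq_neg_one_iff.mpr (by omega)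
  rcases hpd with hpa | hpa <;> rcases hqd with hqa | hqa
  · -- smaller solution
    exfalso
    obtain ⟨r, s, hr, hs, hrs⟩ := split_two (d := p * q) (e := 1) (Nat.mul_pos hp.pos hq.pos)
      one_pos (hcop.mul_dvd_of_dvd_of_dvd hpa hqa) (one_dvd _) (by rw [mul_one]; exact hab)
    have hr0 : 0 < r := by
      rcases Nat.eq_zero_or_pos r with h | h
      · rw [h, zero_mul] at hrs; omega
      · exact h
    have hs0 : 0 < s := by
      rcases Nat.eq_zero_or_pos s with h | h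
      · rw [h, mul_zero] at hrs; omega
      · exact h
    refine hmin r ?_ ⟨hr0, s, ?_⟩
    · have : r ≤ r * s := Nat.le_mul_of_pos_right r hs0
      omega
    · rw [one_mul] at hs; rw [← hs, hr]
  · -- p | a, q | a + 1
    exfalso
    obtain ⟨r, s, hr, hs, hrs⟩ := split_two (d := p) (e := q) hp.pos hq.pos hpa hqa hab
    apply hns
    have h1 : (p : ZMod q) * (r : ZMod q) ^ 2 = -1 := by
      have h2 : ((p * r ^ 2 + 1 : ℕ) : ZMod q) = 0 := by
        rw [← hr, hs]; push_cast; simp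
      push_cast at h2
      exact eq_neg_of_add_eq_zero_left h2
    have hr0 : (r : ZMod q) ≠ 0 := by
      intro h
      rw [h] at h1
      simp at h1
    obtain ⟨c, hc⟩ := hm1
    refine ⟨c * (r : ZMod q)⁻¹, ?_⟩
    have : (p : ZMod q) = (-1) * ((r : ZMod q)⁻¹) ^ 2 := by
      rw [← h1, mul_assoc, ← mul_pow, mul_inv_cancel₀ hr0, one_pow, mul_one]
    rw [this, hc]; ring
  · -- q | a, p | a + 1
    exfalso
    obtain ⟨r, s, hr, hs, hrs⟩ := split_two (d := q) (e := p) hq.pos hp.pos hqa hpa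
      (by rw [mul_comm q p]; exact hab)
    apply hns
    have h1 : (p : ZMod q) * (s : ZMod q) ^ 2 = 1 := by
      have h2 : ((p * s ^ 2 : ℕ) : ZMod q) = ((q * r ^ 2 + 1 : ℕ) : ZMod q) := by
        rw [← hs, ← hr]
      push_cast at h2
      rw [h2]; simp
    have hs0 : (s : ZMod q) ≠ 0 := by
      intro h
      rw [h] at h1
      simp at h1
    refine ⟨(s : ZMod q)⁻¹, ?_⟩
    have : (p : ZMod q) = ((s : ZMod q)⁻¹) ^ 2 := by
      rw [← one_mul (((s : ZMod q)⁻¹) ^ 2), ← h1, mul_assoc, ← mul_pow, mul_inv_cancel₀ hs0,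
        one_pow, mul_one]
    rw [this]; ring
  · -- pq | a + 1
    obtain ⟨r, s, hr, hs, hrs⟩ := split_two (d := 1) (e := p * q) one_pos
      (Nat.mul_pos hp.pos hq.pos) (one_dvd _) (hcop.mul_dvd_of_dvd_of_dvd hpa hqa)
      (by rw [one_mul]; exact hab)
    refine ⟨r, s, ?_, ?_⟩
    · rcases Nat.eq_zero_or_pos s with h | h
      · rw [h, mul_zero] at hrs; omega
      · exact h
    · rw [one_mul] at hr; rw [← hr, hs]

/-- a non-residue modulo an odd prime, as a natural number prime to it -/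
lemma exists_nonres {q : ℕ} (hq : q.Prime) (hq4 : q % 4 = 1) :
    ∃ c : ℕ, ¬ IsSquare (c : ZMod q) := by
  have : Fact q.Prime := ⟨hq⟩
  obtain ⟨a, ha⟩ := FiniteField.exists_nonsquare (F := ZMod q) (by
    rw [ZMod.ringChar_zmod_n]; rintro rfl; simp at hq4)
  exact ⟨a.val, by rwa [ZMod.natCast_zmod_val]⟩

/-- Dirichlet's theorem with residues prescribed at finitely many primes -/
lemma exists_prime (T : Finset ℕ) (hT : ∀ q ∈ T, q.Prime ∧ q % 4 = 1) (N : ℕ) :
    ∃ p : ℕ, p.Prime ∧ p % 4 = 1 ∧ N < p ∧ ∀ q ∈ T, q ≠ p ∧ ¬ IsSquare (p : ZMod q) := by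
  classical
  have hnr : ∀ q : ℕ, ∃ c : ℕ, q ∈ T → ¬ IsSquare (c : ZMod q) := by
    intro q
    by_cases hq : q ∈ T
    · obtain ⟨c, hc⟩ := exists_nonres (hT q hq).1 (hT q hq).2
      exact ⟨c, fun _ => hc⟩
    · exact ⟨0, fun h => absurd h hq⟩
  choose c hc using hnr
  have h4 : 4 ∉ T := by
    intro h
    have := (hT 4 h).1
    revert this; decide
  set T' := insert 4 T with hT'
  set a : ℕ → ℕ := fun q => if q = 4 then 1 else c q with ha
  have hpp : Set.Pairwise (T' : Set ℕ) (Function.onFun Nat.Coprime (fun q => q)) := by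
    intro x hx y hy hxy
    have hx' : x ∈ T' := hx
    have hy' : y ∈ T' := hy
    rw [hT', mem_insert] at hx' hy'
    have key : ∀ z ∈ T, Nat.Coprime 4 z := by
      intro z hz
      have h1 := hT z hz
      have : Nat.Coprime 2 z := by
        rw [Nat.coprime_primes Nat.prime_two h1.1]
        rintro rfl
        omega
      exact Nat.Coprime.pow_left 2 this
    rcases hx' with rfl | hx' <;> rcases hy' with rfl | hy'
    · exact absurd rfl hxy
    · exact key y hy'
    · exact (key x hx').symm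
    · exact (Nat.coprime_primes (hT x hx').1 (hT y hy').1).mpr hxy
  obtain ⟨k, hk⟩ := Nat.chineseRemainderOfFinset a (fun q => q) T' (by
    intro q hq
    rw [hT', mem_insert] at hq
    rcases hq with rfl | hq
    · norm_num
    · exact (hT q hq).1.ne_zero) hpp
  set M := ∏ q ∈ T', q with hM
  have hM0 : M ≠ 0 := by
    rw [hM, prod_ne_zero_iff]
    intro q hq
    rw [hT', mem_insert] at hq
    rcases hq with rfl | hq
    · norm_num
    · exact (hT q hq).1.ne_zero
  have : NeZero M := ⟨hM0⟩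
  have hkc : Nat.Coprime k M := by
    rw [hM]
    apply Nat.Coprime.prod_right
    intro q hq
    have h1 := hk q hq
    rw [hT', mem_insert] at hq
    rcases hq with rfl | hq
    · have h2 : k % 4 = 1 := by
        simp only [ha, if_pos] at h1
        exact h1
      have : Nat.Coprime k 2 := by
        rw [Nat.coprime_comm, Nat.prime_two.coprime_iff_not_dvd]
        omega
      exact Nat.Coprime.pow_right 2 this
    · have : Fact q.Prime := ⟨(hT q hq).1⟩
      rw [Nat.coprime_comm, (hT q hq).1.coprime_iff_not_dvd]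
      intro hd
      have hq4 : q ≠ 4 := fun h => h4 (h ▸ hq)
      simp only [ha, if_neg hq4] at h1
      have h3 : (k : ZMod q) = (c q : ZMod q) := (ZMod.natCast_eq_natCast_iff k (c q) q).mpr h1
      have h5 : (k : ZMod q) = 0 := (ZMod.natCast_eq_zero_iff k q).mpr hd
      apply hc q hq
      rw [← h3, h5]
      exact ⟨0, by simp⟩
  obtain ⟨p, hpN, hpp', hpk⟩ := Nat.forall_exists_prime_gt_and_eq_mod
    (q := M) (a := (k : ZMod M)) ((ZMod.isUnit_iff_coprime k M).mpr hkc) (max N M)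
  have hpM : ∀ q ∈ T', p ≡ k [MOD q] := by
    intro q hq
    have h1 : p ≡ k [MOD M] := (ZMod.natCast_eq_natCast_iff p k M).mp hpk
    exact h1.of_dvd (dvd_prod_of_mem _ hq)
  refine ⟨p, hpp', ?_, lt_of_le_of_lt (le_max_left _ _) hpN, ?_⟩
  · have h1 := (hpM 4 (mem_insert_self _ _)).trans (hk 4 (mem_insert_self _ _))
    simp only [ha, if_pos] at h1
    exact h1
  · intro q hq
    have hq4 : q ≠ 4 := fun h => h4 (h ▸ hq)
    constructor
    · rintro rfl
      have h1 : q ∣ M := dvd_prod_of_mem _ (mem_insert_of_mem hq)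
      have h2 := Nat.le_of_dvd (Nat.pos_of_ne_zero hM0) h1
      have h3 := lt_of_le_of_lt (le_max_right N M) hpN
      omega
    · have h1 := (hpM q (mem_insert_of_mem hq)).trans (hk q (mem_insert_of_mem hq))
      simp only [ha, if_neg hq4] at h1
      rw [(ZMod.natCast_eq_natCast_iff p (c q) q).mpr h1]
      exact hc q hq

/-- an infinite sequence all of whose quotients are values of `(n ^ 2 + 1) m ^ 2` -/
theorem clique (N : ℕ) : ∃ f : ℕ → ℕ × ℕ,
    (∀ i, (f i).1.Prime ∧ (f i).1 % 4 = 1 ∧ N < (f i).1 ∧ 0 < (f i).2) ∧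
    ∀ i j, i < j → ∃ n m : ℕ, N < n ∧ 0 < m ∧
      (f j).1 * (f j).2 ^ 2 = (n ^ 2 + 1) * m ^ 2 * ((f i).1 * (f i).2 ^ 2) := by
  classical
  apply exists_seq_of_forall_finset_exists
    (P := fun z : ℕ × ℕ => z.1.Prime ∧ z.1 % 4 = 1 ∧ N < z.1 ∧ 0 < z.2)
    (r := fun z w : ℕ × ℕ => ∃ n m : ℕ, N < n ∧ 0 < m ∧
      w.1 * w.2 ^ 2 = (n ^ 2 + 1) * m ^ 2 * (z.1 * z.2 ^ 2))
  intro s hs
  obtain ⟨p, hp, hp4, hpN, hpT⟩ := exists_prime (s.image Prod.fst) (by
    intro q hq
    obtain ⟨z, hz, rfl⟩ := mem_image.mp hq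
    exact ⟨(hs z hz).1, (hs z hz).2.1⟩) N
  have hsol : ∀ z : ℕ × ℕ, ∃ n y : ℕ, z ∈ s → (0 < y ∧ n ^ 2 + 1 = p * z.1 * y ^ 2) := by
    intro z
    by_cases hz : z ∈ s
    · have h1 := hpT z.1 (mem_image_of_mem _ hz)
      obtain ⟨n, y, hy, hn⟩ := negPell hp (hs z hz).1 h1.1.symm hp4 (hs z hz).2.1 h1.2
      exact ⟨n, y, fun _ => ⟨hy, hn⟩⟩
    · exact ⟨0, 0, fun h => absurd h hz⟩
  choose n y hny using hsol
  refine ⟨(p, ∏ z ∈ s, z.1 * z.2 * y z), ⟨hp, hp4, hpN, ?_⟩, ?_⟩
  · apply prod_pos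
    intro z hz
    exact Nat.mul_pos (Nat.mul_pos (hs z hz).1.pos (hs z hz).2.2.2) (hny z hz).1
  · intro z hz
    refine ⟨n z, ∏ w ∈ s.erase z, w.1 * w.2 * y w, ?_, ?_, ?_⟩
    · have h1 := (hny z hz).2
      have h2 : (hs z hz).1.pos.le.antisymm = (hs z hz).1.pos.le.antisymm := rfl
      have h3 : 1 ≤ (y z) ^ 2 := Nat.one_le_pow _ _ (hny z hz).1
      have h4 : N < z.1 := (hs z hz).2.2.1
      have h5 : (N + 1) * (N + 1) ≤ p * z.1 := Nat.mul_le_mul hpN h4
      have h6 : (N + 1) * (N + 1) ≤ n z ^ 2 + 1 := by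
        rw [h1]
        calc (N + 1) * (N + 1) ≤ p * z.1 := h5
          _ = p * z.1 * 1 := (mul_one _).symm
          _ ≤ p * z.1 * (y z) ^ 2 := Nat.mul_le_mul_left _ h3
      by_contra hcon
      push Not at hcon
      have h7 : n z ^ 2 ≤ N ^ 2 := Nat.pow_le_pow_left hcon 2
      have h8 : 2 ≤ p := hp.two_le
      rcases Nat.eq_zero_or_pos N with h9 | h9
      · subst h9
        have h10 : n z = 0 := by omega
        rw [h10] at h1
        have h11 : 1 < p * z.1 * y z ^ 2 := by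
          calc 1 < p := by omega
            _ = p * 1 * 1 := by ring
            _ ≤ p * z.1 * y z ^ 2 := by gcongr; omega
        omega
      · nlinarith
    · apply prod_pos
      intro w hw
      have hw' := mem_of_mem_erase hw
      exact Nat.mul_pos (Nat.mul_pos (hs w hw').1.pos (hs w hw').2.2.2) (hny w hw').1
    · simp only
      rw [← mul_prod_erase s _ hz]
      have h1 := (hny z hz).2
      rw [h1]
      ring

end Pool.Agent.H27.MR
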